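import Pool.Agent.Lib.helper2.QProd

set_option autoImplicit false

namespace Pool.Agent.Results.MP_f836a2_nt.Zero

open PowerSeries PowerSeries.WithPiTopology

/-- The infinite product `(q^a; q^b)`. -/
noncomputable def qp (a b : ℕ) : ℤ⟦X⟧ := ∏' i : ℕ, (1 - X ^ (a + b * i))

/-- Truncated pentagonal sum. -/
noncomputable def P (k : ℕ) : ℤ⟦X⟧ :=
  ∑ i ∈ Finset.Icc (1 - (k : ℤ)) k, (-1) ^ i.natAbs * X ^ (i * (3 * i - 1) / 2).toNat

noncomputable def F (k : ℕ) : ℤ⟦X⟧ :=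
  (-1) ^ (k - 1) * (P k * invOfUnit (qp 1 1) 1 - 1) * (qp 1 7 * qp 6 7 * qp 7 7)

def N (k : ℕ) : ℕ := k * (3 * k + 1) / 2

open Pool.Agent.Lib.helper2.QProd in
theorem c5 : coeff 5 (F 1) = 0 := by
  obtain ⟨B1, h1⟩ := poch_trunc 1 1 le_rfl le_rfl 5
  obtain ⟨B2, h2⟩ := poch_trunc 1 7 le_rfl (by norm_num) 5
  obtain ⟨B3, h3⟩ := poch_trunc 6 7 (by norm_num) (by norm_num) 5
  obtain ⟨B4, h4⟩ := poch_trunc 7 7 (by norm_num) (by norm_num) 5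
  simp only [Finset.prod_range_succ, Finset.prod_range_zero] at h1 h2 h3 h4
  have hu : qp 1 1 * invOfUnit (qp 1 1) 1 = 1 := mul_invOfUnit _ _ (by
    unfold qp; rw [h1]; simp)
  have hP : P 1 = 1 - X := by
    unfold P
    rw [show Finset.Icc (1 - ((1 : ℕ) : ℤ)) (1 : ℕ) = {0, 1} by decide, Finset.sum_pair (by norm_num)]
    norm_num; ring
  let I := Ideal.span {(X : ℤ⟦X⟧) ^ 6}
  let φ := Ideal.Quotient.mk I
  have hx : φ X ^ 6 = 0 := by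
    rw [← map_pow]; exact Ideal.Quotient.eq_zero_iff_mem.2 (Ideal.mem_span_singleton_self _)
  have hx' : ∀ n, φ X ^ (6 + n) = 0 := fun n => by rw [pow_add, hx, zero_mul]
  have e1 : φ (qp 1 1) = (1 - φ X) * (1 - φ X ^ 2) * (1 - φ X ^ 3) * (1 - φ X ^ 4) *
      (1 - φ X ^ 5) := by
    unfold qp; rw [h1]; simp [hx]
  have e2 : φ (qp 1 7) = 1 - φ X := by
    unfold qp; rw [h2]; simp [hx, hx' 2, hx' 9, hx' 16, hx' 23]
  have e3 : φ (qp 6 7) = 1 := by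
    unfold qp; rw [h3]; simp [hx, hx' 7, hx' 14, hx' 21, hx' 28]
  have e4 : φ (qp 7 7) = 1 := by
    unfold qp; rw [h4]; simp [hx, hx' 1, hx' 8, hx' 15, hx' 22, hx' 29]
  have e5 := congrArg φ hu
  rw [map_mul, e1, map_one] at e5
  have e6 : φ (F 1) = φ (X ^ 2 + X ^ 4) := by
    unfold F
    simp only [map_mul, map_sub, map_one, map_pow, map_neg, hP, e2, e3, e4, map_add]
    generalize φ (invOfUnit (qp 1 1) 1) = y at e5 ⊢
    generalize φ X = x at e5 hx ⊢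
    have e7 : y = 1 + x + 2 * x ^ 2 + 3 * x ^ 3 + 5 * x ^ 4 + 7 * x ^ 5 := by
      linear_combination (1 + x + 2 * x ^ 2 + 3 * x ^ 3 + 5 * x ^ 4 + 7 * x ^ 5) * e5 -
        y * (-10 - 3 * x + 5 * x ^ 2 + 8 * x ^ 3 + 11 * x ^ 4 + 6 * x ^ 5 - 3 * x ^ 6 - 14 * x ^ 7
          - 10 * x ^ 8 - 5 * x ^ 9 + 4 * x ^ 10 + 6 * x ^ 11 + 9 * x ^ 12 + 2 * x ^ 13
          - 7 * x ^ 14) * hx
    rw [e7]
    linear_combination (-9 + 7 * x) * hx
  have e8 := X_pow_dvd_iff.1 (Ideal.mem_span_singleton.1 (Ideal.Quotient.eq.1 e6)) 5 (by norm_num)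
  simpa [coeff_X_pow] using e8

theorem result : ¬ ∀ k : ℕ, 1 ≤ k →
    (∀ n, n < N k ∨ n = N k + 1 → coeff n (F k) = 0) ∧
    (∀ n, n = N k ∨ N k + 2 ≤ n → 0 < coeff n (F k)) := by
  intro h
  have := (h 1 le_rfl).2 5 (Or.inr (by decide))
  rw [c5] at this
  exact lt_irrefl _ this

end Pool.Agent.Results.MP_f836a2_nt.Zero
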